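import Pool.Agent.Helper63.P705.NUM.Tab
import Pool.Agent.Helper63.P705.NUM.Lem

/-!
# MP_705522_gt: the first moments, computed with short loops
-/

noncomputable section

namespace Pool.Agent.Helper63.P705

/-- `momN`, with `5` instead of `120` steps -/
def momF (a j : ℕ) : ℕ :=
  sq (rpk GT a 5) fun R => sq (apk 5 R) fun A =>
  Nat.shiftRight (Nat.mul (fld A 160 j) (cnd (Nat.beq j 2) 24 (cnd (Nat.beq j 3) 720 40320)))
    (Nat.add 60 (Nat.mul 6 j))

/-- one step of `rpk` -/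
def stR (G a W0 W1 j : ℕ) (s : ℕ × ℕ) : ℕ × ℕ :=
  (gval G (a * (2 * j + 1)),
   s.2 + (Nat.div (Nat.shiftLeft (Nat.mul (Nat.mul (gval G (a * (2 * j + 1))) W0)
      (cnd (Nat.beq (Nat.sub (Nat.shiftRight (a * (2 * j + 1)) 13)
        (Nat.shiftRight (Nat.sub (a * (2 * j + 1)) (Nat.mul 2 a)) 13)) 0) 655360 1)) 120)
      (Nat.mul (Nat.mul s.1 W1) (Nat.add (Nat.mul 2 j) 1))) * 2 ^ (128 * j))

def seR (G a W0 W1 c1 : ℕ) : ℕ → ℕ × ℕ
  | 0 => (c1, 2 ^ 120)
  | j + 1 => stR G a W0 W1 (j + 1) (seR G a W0 W1 c1 j)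

theorem rpk_eq (G a J : ℕ) : rpk G a J = (seR G a (fld G 128 (Nat.sub 8192 a))
    (Nat.mul (fld G 128 a) (Nat.sub 8192 a)) (gval G a) J).2 := by
  unfold rpk
  rw [sq_eq, sq_eq, sq_eq]
  generalize fld G 128 (Nat.sub 8192 a) = W0
  generalize Nat.mul (fld G 128 a) (Nat.sub 8192 a) = W1
  generalize gval G a = c1
  have key : ∀ n j : ℕ, n + j = J → ∀ s : ℕ × ℕ, s = seR G a W0 W1 c1 j →
      lp2 n (fun i cur R k =>
        sq (Nat.sub J i) fun j => sq (Nat.mul a (Nat.add (Nat.mul 2 j) 1)) fun y2 =>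
        sq (gval G y2) fun nxt =>
        sq (Nat.sub (Nat.shiftRight y2 13) (Nat.shiftRight (Nat.sub y2 (Nat.mul 2 a)) 13)) fun dm =>
        sq (Nat.div (Nat.shiftLeft (Nat.mul (Nat.mul nxt W0) (cnd (Nat.beq dm 0) 655360 1)) 120)
          (Nat.mul (Nat.mul cur W1) (Nat.add (Nat.mul 2 j) 1))) fun rj =>
        sq (Nat.add R (Nat.shiftLeft rj (Nat.mul 128 j))) fun R' => k nxt R')
        (fun _ R => R) s.1 s.2 = (seR G a W0 W1 c1 J).2 := by
    intro n
    induction n with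
    | zero =>
      intro j hj s hs
      rw [lp2_zero, hs]
      have : j = J := by omega
      rw [this]
    | succ n ih =>
      intro j hj s hs
      rw [lp2_succ]
      simp only [sq_eq]
      have hJn : Nat.sub J n = j + 1 := by
        show J - n = j + 1
        omega
      rw [hJn]
      have := ih (j + 1) (by omega) (seR G a W0 W1 c1 (j + 1)) rfl
      rw [← this]
      simp only [sq_eq]
      have e1 : (seR G a W0 W1 c1 (j + 1)) = stR G a W0 W1 (j + 1) s := by rw [hs]; rfl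
      rw [e1]
      unfold stR
      have e2 : ∀ x k : ℕ, Nat.shiftLeft x k = x * 2 ^ k := fun x k => Nat.shiftLeft_eq x k
      simp only [e2]
      rfl
  have := key J 0 (by omega) (c1, 2 ^ 120) rfl
  rw [← this]
  have e2 : Nat.shiftLeft 1 120 = 2 ^ 120 := by rw [show Nat.shiftLeft 1 120 = 1 <<< 120 from rfl,
    Nat.one_shiftLeft]
  rw [e2]

theorem seR_mod (G a W0 W1 c1 : ℕ) (m : ℕ) : ∀ n, m ≤ n →
    (seR G a W0 W1 c1 n).2 % 2 ^ (128 * (m + 1)) = (seR G a W0 W1 c1 m).2 % 2 ^ (128 * (m + 1)) := by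
  intro n hn
  induction n, hn using Nat.le_induction with
  | base => rfl
  | succ n hn ih =>
    show (stR G a W0 W1 (n + 1) (seR G a W0 W1 c1 n)).2 % _ = _
    unfold stR
    rw [← ih]
    have : 2 ^ (128 * (n + 1)) = 2 ^ (128 * (m + 1)) * 2 ^ (128 * (n - m)) := by
      rw [← pow_add]; congr 1; omega
    dsimp only
    rw [this, ← mul_assoc, mul_comm (_ : ℕ) (2 ^ (128 * (m + 1))), mul_assoc, Nat.add_mul_mod_self_left]

theorem fld_mod {T T' w j k : ℕ} (hj : j < k) (h : T % 2 ^ (w * k) = T' % 2 ^ (w * k)) :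
    fld T w j = fld T' w j := by
  rw [fld_eq, fld_eq]
  have key : ∀ S : ℕ, S / 2 ^ (w * j) % 2 ^ w = (S % 2 ^ (w * k)) / 2 ^ (w * j) % 2 ^ w := by
    intro S
    have h1 : 2 ^ (w * k) = 2 ^ (w * j) * 2 ^ (w * (k - j)) := by
      rw [← pow_add, ← Nat.mul_add]; congr 2; omega
    rw [h1, Nat.mod_mul_right_div_self]
    have h2 : 2 ^ w ∣ 2 ^ (w * (k - j)) := by
      apply pow_dvd_pow
      have : 1 ≤ k - j := by omega
      calc w = w * 1 := (mul_one w).symm
        _ ≤ w * (k - j) := Nat.mul_le_mul_left w this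
    rw [Nat.mod_mod_of_dvd _ h2]
  rw [key T, key T', h]

theorem fld_rpk (a m n j : ℕ) (hm : m ≤ n) (hj : j ≤ m) :
    fld (rpk GT a n) 128 j = fld (rpk GT a m) 128 j := by
  rw [rpk_eq, rpk_eq]
  exact fld_mod (k := m + 1) (by omega) (seR_mod _ _ _ _ _ m n hm)

/-- one step of `apk` -/
def stA (R j : ℕ) (s : ℕ × ℕ) : ℕ × ℕ :=
  (Nat.shiftRight (Nat.div (Nat.mul (Nat.mul s.1 32) (fld R 128 j)) (Nat.succ j)) 120,
   s.2 + Nat.shiftRight (Nat.div (Nat.mul (Nat.mul s.1 32) (fld R 128 j)) (Nat.succ j)) 120 *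
    2 ^ (160 * (j + 1)))

def seA (R : ℕ) : ℕ → ℕ × ℕ
  | 0 => (Nat.shiftLeft 32 100, Nat.add (Nat.shiftLeft 1 100) (Nat.shiftLeft 32 260))
  | j + 1 => stA R (j + 1) (seA R j)

theorem apk_eq (J R : ℕ) (hJ : 1 ≤ J) : apk J R = (seA R (J - 1)).2 := by
  unfold apk
  have key : ∀ n j : ℕ, n + j = J - 1 → ∀ s : ℕ × ℕ, s = seA R j →
      lp2 n (fun i aj A k =>
        sq (Nat.sub (Nat.sub J 1) i) fun j =>
        sq (Nat.shiftRight (Nat.div (Nat.mul (Nat.mul aj 32) (fld R 128 j)) (Nat.succ j)) 120) fun aj' =>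
        sq (Nat.add A (Nat.shiftLeft aj' (Nat.mul 160 (Nat.succ j)))) fun A' => k aj' A')
        (fun _ A => A) s.1 s.2 = (seA R (J - 1)).2 := by
    intro n
    induction n with
    | zero =>
      intro j hj s hs
      rw [lp2_zero, hs]
      have : j = J - 1 := by omega
      rw [this]
    | succ n ih =>
      intro j hj s hs
      rw [lp2_succ]
      simp only [sq_eq]
      have hJn : Nat.sub (Nat.sub J 1) n = j + 1 := by
        show J - 1 - n = j + 1
        omega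
      rw [hJn]
      have := ih (j + 1) (by omega) (seA R (j + 1)) rfl
      rw [← this]
      simp only [sq_eq]
      have e1 : (seA R (j + 1)) = stA R (j + 1) s := by rw [hs]; rfl
      rw [e1]
      unfold stA
      have e2 : ∀ x k : ℕ, Nat.shiftLeft x k = x * 2 ^ k := fun x k => Nat.shiftLeft_eq x k
      simp only [e2]
      rfl
  exact key (J - 1) 0 (by omega) _ rfl

theorem seA_congr {R R' : ℕ} (m : ℕ) (h : ∀ j, 1 ≤ j → j ≤ m → fld R 128 j = fld R' 128 j) :
    seA R m = seA R' m := by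
  induction m with
  | zero => rfl
  | succ m ih =>
    show stA R (m + 1) (seA R m) = stA R' (m + 1) (seA R' m)
    rw [ih fun j h1 h2 => h j h1 (by omega)]
    unfold stA
    rw [h (m + 1) (by omega) le_rfl]

theorem seA_mod (R m : ℕ) : ∀ n, m ≤ n →
    (seA R n).2 % 2 ^ (160 * (m + 2)) = (seA R m).2 % 2 ^ (160 * (m + 2)) := by
  intro n hn
  induction n, hn using Nat.le_induction with
  | base => rfl
  | succ n hn ih =>
    show (stA R (n + 1) (seA R n)).2 % _ = _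
    unfold stA
    rw [← ih]
    have : 2 ^ (160 * (n + 1 + 1)) = 2 ^ (160 * (m + 2)) * 2 ^ (160 * (n - m)) := by
      rw [← pow_add]; congr 1; omega
    dsimp only
    rw [this, ← mul_assoc, mul_comm (_ : ℕ) (2 ^ (160 * (m + 2))), mul_assoc, Nat.add_mul_mod_self_left]

theorem fld_apk (a j : ℕ) (hj : j ≤ 4) :
    fld (apk 120 (rpk GT a 120)) 160 j = fld (apk 5 (rpk GT a 5)) 160 j := by
  rw [apk_eq 120 _ (by norm_num), apk_eq 5 _ (by norm_num)]
  have h1 : fld (seA (rpk GT a 120) (120 - 1)).2 160 j = fld (seA (rpk GT a 120) (5 - 1)).2 160 j :=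
    fld_mod (k := 4 + 2) (by omega) (seA_mod _ 4 119 (by norm_num))
  rw [h1, seA_congr (R := rpk GT a 120) (R' := rpk GT a 5) (5 - 1) (fun j _ h2 =>
    fld_rpk a 5 120 j (by norm_num) (by omega))]

theorem momN_eq (a j : ℕ) (hj : j ≤ 4) : momN a j = momF a j := by
  unfold momN momF acf
  rw [sq_eq, sq_eq, sq_eq, fld_apk a j hj]

end Pool.Agent.Helper63.P705
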