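import Pool.Agent.Helper63.P705.BS.Asm
import Pool.Agent.Helper53.PT.Base

/-!
# MP_705522_gt: soundness of the base data of a cell
-/

namespace Pool.Agent.Helper63.P705

open Pool.Agent.Helper53.PT

/-- all checks on the base data (without the tables), cell `[(A - h)/8192, (A + h)/8192]` -/
noncomputable def baseOK (A : ℕ) (B : N.Base) : Bool :=
  nd (Nat.ble B.h 64) (bChk A B.h B.dm2 B.dm3 B.m2R B.m3R B.m4R B.c0 B.c1 B.c2 B.gn B.ni)

theorem cadd (x y : ℕ) : ((Nat.add x y : ℕ) : ℝ) = x + y := Nat.cast_add x y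

theorem cshl (x k : ℕ) : ((Nat.shiftLeft x k : ℕ) : ℝ) = x * 2 ^ k := by
  have : Nat.shiftLeft x k = x * 2 ^ k := Nat.shiftLeft_eq x k
  rw [this, Nat.cast_mul, Nat.cast_pow]; norm_num

theorem csub {x y : ℕ} (h : y ≤ x) : ((Nat.sub x y : ℕ) : ℝ) = x - y := Nat.cast_sub h

theorem cond_le {α : Type} {a b : ℕ} (x y : α) (h : a ≤ b) : cond (Nat.ble a b) x y = x := by
  rw [Nat.ble_eq_true_of_le h]; rfl

theorem cond_nle {α : Type} {a b : ℕ} (x y : α) (h : ¬ a ≤ b) : cond (Nat.ble a b) x y = y := by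
  have : Nat.ble a b = false := by
    rw [← Bool.not_eq_true, Nat.ble_eq]; exact h
  rw [this]; rfl

theorem xR_eq (k : ℕ) : xR k = xg k := by
  unfold xR aR xg N.xgN
  by_cases h1 : k ≤ 255
  · rw [cond_le _ _ h1, if_pos (Nat.lt_succ_of_le h1), cshl]
    norm_num
    ring
  · rw [cond_nle _ _ h1, if_neg fun h => h1 (Nat.le_of_lt_succ h)]
    by_cases h2 : k ≤ 735
    · rw [cond_le _ _ h2, if_pos (Nat.lt_succ_of_le h2), cadd, cshl, csub (by omega)]
      norm_num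
      ring
    · rw [cond_nle _ _ h2, if_neg fun h => h2 (Nat.le_of_lt_succ h)]
      by_cases h3 : k ≤ 991
      · rw [cond_le _ _ h3, if_pos (Nat.lt_succ_of_le h3), cadd, cshl, csub (by omega)]
        norm_num
        ring
      · rw [cond_nle _ _ h3, if_neg fun h => h3 (Nat.le_of_lt_succ h), cadd, cshl, csub (by omega)]
        norm_num
        ring

theorem fld_num (T k : ℕ) : N.fld T k = T / 2 ^ (44 * k) % 2 ^ 44 := by
  unfold N.fld
  have e5 : ∀ T m : ℕ, Nat.shiftRight T m = T / 2 ^ m := fun T m => Nat.shiftRight_eq_div_pow _ _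
  have e6 : ∀ a b : ℕ, Nat.mod a b = a % b := fun _ _ => rfl
  have e7 : ∀ a b : ℕ, Nat.mul a b = a * b := fun _ _ => rfl
  rw [e5, e6, e7]
  norm_num

theorem vR_fld (T k : ℕ) : vR (N.fld T k) - 1 = tval T k := by
  unfold vR tval
  rw [fld_num]

/-- a bound on `(0, ∞)` of a continuous function holds at `0` -/
theorem at_zero {g : ℝ → ℝ} (hg : Continuous g) {D : ℝ} (h : ∀ x, 0 < x → g x ≤ D) : g 0 ≤ D := by
  have h1 : (0 : ℝ) ∈ closure (Set.Ioi (0 : ℝ)) := by rw [closure_Ioi]; exact Set.self_mem_Ici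
  have h2 : closure (Set.Ioi (0 : ℝ)) ⊆ {x | g x ≤ D} :=
    closure_minimal (fun x hx => h x hx) (isClosed_le hg continuous_const)
  exact h2 h1

theorem base_facts {A : ℕ} {B : N.Base} (h0 : B.T0 = tabP A) (h1 : B.T1 = tabS A)
    (h2 : B.T2 = tabT A) (hc : baseOK A B = true) {θ : ℝ} (hθ1 : ((A : ℝ) - B.h) / 8192 ≤ θ)
    (hθ2 : θ ≤ ((A : ℝ) + B.h) / 8192) : BaseFacts A B θ := by
  unfold baseOK at hc
  rw [nd_true, Nat.ble_eq] at hc
  obtain ⟨hh, hc⟩ := hc
  have C := cell_ok hc θ hθ1 hθ2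
  have C' := cell_ok hc ((A : ℝ) / 8192)
    (div_le_div_of_nonneg_right (by have := Nat.cast_nonneg (α := ℝ) B.h; linarith) (by norm_num))
    (div_le_div_of_nonneg_right (by have := Nat.cast_nonneg (α := ℝ) B.h; linarith) (by norm_num))
  have e16 : (16 : ℝ) * ((B.h : ℝ) / 8192) = (B.h : ℝ) / 512 := by ring
  have th0 : 0 < θ := by have := C.th0; linarith
  have ct0 : 0 < (A : ℝ) / 8192 := by have := C'.th0; linarith
  have D := C.v
  refine ⟨C.th0, C.th1, C'.th0, C'.th1, hh, ?_, ?_, ?_, ?_, ?_, ?_, ⟨C.m2, C'.m2⟩, ⟨C.m3, C'.m3⟩,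
    ⟨C.m4, C'.m4⟩, C.fp, C.ng⟩
  · intro k hk
    rw [vR_fld, h0, xR_eq, abs_sub_comm]
    exact (C.t k hk).1
  · intro k hk
    rw [vR_fld, h1, xR_eq, abs_sub_comm]
    exact (C.t k hk).2.1
  · intro k hk
    rw [vR_fld, h2, xR_eq, abs_sub_comm]
    exact (C.t k hk).2.2
  · intro x hx
    rcases hx.eq_or_lt with rfl | hx
    · rw [f0_zero th0 C.th1, f0_zero ct0 C'.th1]
      simp
      positivity
    · obtain ⟨v1, v2, v3, v4, v5, v6, v7, v8⟩ := D x hx
      rw [e16] at v3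
      exact ⟨v1, v2, v3⟩
  · intro x hx
    rcases hx.eq_or_lt with rfl | hx
    · rw [f1_zero th0 C.th1, f1_zero ct0 C'.th1]
      simp
      positivity
    · obtain ⟨v1, v2, v3, v4, v5, v6, v7, v8⟩ := D x hx
      rw [e16] at v6
      exact ⟨v4, v5, v6⟩
  · intro x hx
    rcases hx.eq_or_lt with rfl | hx
    · refine ⟨?_, ?_⟩
      · have hcont : Continuous fun x => |f2 θ x - f2 ((A : ℝ) / 8192) x| :=
          ((continuous_f2 th0 C.th1).sub (continuous_f2 ct0 C'.th1)).abs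
        exact at_zero hcont fun x hx => (D x hx).2.2.2.2.2.2.1
      · rw [zero_mul]
        positivity
    · obtain ⟨v1, v2, v3, v4, v5, v6, v7, v8⟩ := D x hx
      exact ⟨v7, v8⟩

end Pool.Agent.Helper63.P705
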