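import Pool.Agent.Helper63.P705.BS.Fun
import Pool.Agent.Helper63.P705.NUM.Final
import Pool.Agent.Helper53.PT.GoalsB2
import Pool.Agent.Helper31.PT.TP
import Pool.Agent.Helper89.PT.SN
import Pool.Agent.Helper94.PT.NI
import Pool.Agent.Helper70.PT.FI

/-!
# MP_705522_gt: soundness of the base data of a cell (goals)

`P705/BS/Fun.lean`: the functions (all of them checked against a Python mirror).  `NUM/Lem.lean`: `sq_eq`,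
`lp_succ`, `lp2_succ`, `cnd_eq`, `nmin_eq`, `nmax_eq`.  `num_ok : NumOK` (`gam`, `mom`, `m3`, `tab`).
`Nat.shiftLeft a k = a * 2^k`, `Nat.shiftRight a k = a / 2^k`, `Nat.land a 8191 = a % 8192`.
Do NOT unfold `gamN`, `GT`, `tab`, `acf`.
-/

namespace Pool.Agent.Helper63.P705

open Pool.Agent.Helper53.PT (mo m3 f0 f1 f2 tk Nn AA AB FP GTP GSN GNI GFI sg)

/-- (BA) integer roots and powers, all lower bounds.  `sqF n x0 ^ 2 ≤ n` (by the tests in its definition).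
`pwr s r`: after step `i` (from `12` down to `0`) `cur ≤ 2^60 (s/2^60)^(2^(i-13))` (`cur'² ≤ 2^60 cur`), and `acc` is at
most `2^60` times the product of these numbers over the binary digits `≥ i` of `r`, i.e.
`2^60 (s/2^60)^(2^i ⌊r/2^i⌋/8192)`.  `pwL`: `m = ⌊P/8192⌋ ≥ 1`, `⌊s^m/2^(60(m-1))⌋ ≤ 2^60 (s/2^60)^m`. -/
def BA : Prop :=
  (∀ n x0 : ℕ, sqF n x0 ^ 2 ≤ n) ∧
  (∀ s P : ℕ, 8192 ≤ P → (pwL s P : ℝ) ≤ 2 ^ 60 * ((s : ℝ) / 2 ^ 60) ^ ((P : ℝ) / 8192))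

/-- (BB) Gamma.  From `NumOK.gam`: `Γ ≤ (gamN/2^60)/(1 - 2^-50) ≤ (gamN/2^60)(1 + 2^-49)`, floor plus one; lower bound
the same.  `Γ(x) ≥ 1` for `0 < x ≤ 1` (convexity, `Γ(1) = Γ(2) = 1`: `Γ` is antitone on `(0,1]`). -/
def BB : Prop := NumOK → ∀ p : ℕ, 4096 ≤ p → p < 65536 →
  2 ^ 60 * Real.Gamma (p / 8192) ≤ gamU p ∧ (gamL p : ℝ) ≤ 2 ^ 60 * Real.Gamma (p / 8192) ∧
  (p ≤ 8192 → 2 ^ 59 ≤ gamL p)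

/-- (BC) the supremum over a cell.  `x ↦ log Γ(x) - x log σ` is convex (`Real.convexOn_log_Gamma`), so its maximum over
`[P/8192, P'/8192]` is at an end; at an end `Γ(P/8192) σ^(-P/8192) ≤ Γ(P/8192) (2^60)/(pwL s P)` because
`pwL s P ≤ 2^60 (s/2^60)^(P/8192) ≤ 2^60 σ^(P/8192)` (`BA`, `s ≤ 2^60 σ`), if `pwL s P ≠ 0`; if it is `0` the value is
`2^200 ≥ 2^60 Γ(P/8192)` (`σ ≥ 1`, `Γ(P/8192) ≤ Γ(8) = 5040` on `[1,8]`). -/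
def BC : Prop := NumOK → BA → BB → ∀ s P P' : ℕ, 8192 ≤ P → P ≤ P' → P' < 65536 → ∀ σ x : ℝ, 1 ≤ σ →
  (s : ℝ) ≤ 2 ^ 60 * σ → (P : ℝ) / 8192 ≤ x → x ≤ (P' : ℝ) / 8192 →
  2 ^ 60 * (Real.Gamma x * σ ^ (-x)) ≤ gsM s P P'

/-- (BD) the sine.  `sin x ≥ x - x³/6 + x⁵/120 - x⁷/5040` for `x ≥ 0` (iterate
`Real.cos_le_one`-type integrations, or derivatives), the right side is increasing for `0 ≤ x ≤ 0.8` and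
`X/2^60 ≤ π a/16384` (`pi60/2^60 ≤ π`: `Real.pi_gt_d20`), `sinL a` is its floor (exact integer numerator; `a ≤ 4096`).
Positivity: value at least `.38` for `a ≥ 2048`. -/
def BD : Prop := ∀ a : ℕ, 2048 ≤ a → a ≤ 4096 →
  (sinL a : ℝ) ≤ 2 ^ 60 * Real.sin (Real.pi * (a / 8192) / 2) ∧ 2 ^ 58 ≤ sinL a

/-- (BE) the geometry of a cell.  `Γ(1-θ) ≥ Γ(1-a1/8192)` (antitone on `(0,1]`), `Γ(1+θ) ≤` maximum at the ends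
(convexity), `tk θ 64 ^ 2 = 64 Γ(1-θ)/Γ(1+θ)`.  `tk θ 64 ≥ 8`: `Γ(1-θ) ≥ 1 ≥ Γ(1+θ)`.
`Nn θ = θ Γ(1-θ)`.  `|cos(π(q-1)/2)|`: `GSN`, `q - 2 ≤ (8192-2a1)/a1`, `4 - q ≤ (4a2-8192)/a2` for `q = 1/θ ∈
[8192/a2, 8192/a1]`.  Sizes: `8192/a2 > 2`, `8192/a1 ≤ 4`. -/
def BE : Prop := NumOK → BA → BB → BD → GSN → ∀ a1 a2 : ℕ, 2048 ≤ a1 → a1 ≤ a2 → a2 < 4096 →
  ∀ θ : ℝ, (a1 : ℝ) / 8192 ≤ θ → θ ≤ (a2 : ℝ) / 8192 →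
  (tLo a1 a2 : ℝ) ≤ 2 ^ 60 * tk θ 64 ∧ 8 ≤ tk θ 64 ∧
  (sinL a1 : ℝ) ≤ 2 ^ 60 * Real.sin (Real.pi * θ / 2) ∧ 0.38 ≤ Real.sin (Real.pi * θ / 2) ∧
  ((Nat.shiftRight (Nat.mul a1 (gamL (Nat.sub 8192 a1))) 13 : ℕ) : ℝ) ≤ 2 ^ 60 * Nn θ ∧
  0 < Nat.shiftRight (Nat.mul a1 (gamL (Nat.sub 8192 a1))) 13 ∧
  2 ^ 60 * |Real.cos (Real.pi * (1 / θ - 1) / 2)| ≤ csU a1 a2 ∧
  (pA a2 : ℝ) / 8192 ≤ 1 / θ - 1 ∧ 1 / θ - 1 ≤ (pB a1 : ℝ) / 8192 ∧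
  (pC a2 : ℝ) / 8192 ≤ 2 / θ - 1 ∧ 2 / θ - 1 ≤ (pD a1 : ℝ) / 8192 ∧
  8192 ≤ pA a2 ∧ pA a2 ≤ pB a1 ∧ pB a1 ≤ 24576 ∧ 24576 ≤ pC a2 ∧ pC a2 ≤ pD a1 ∧ pD a1 ≤ 57344

/-- (BF) the bounds beyond `64`.  `q = 1/θ`, `t = tk θ 64`, `w = sin(πθ/2)`, `N = Nn θ`, `c = |cos(π(q-1)/2)|`.
With `s1 = Γ(q-1) t^(-(q-1))`, `s2 = Γ(2q-1) (tw)^(-(2q-1))`, `s3 = Γ(q-1) (tw)^(-(q-1))` and `Γ(x+1) = xΓ(x)`: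
`AA θ 0 t = (c s1 + s2)/N`, `AB θ 0 t = s3/N`; `AA θ 1 t · t = (c (q-1) s1 + (2q-1) s2/w)/N`, `AB θ 1 t · t = (q-1) s3/(w N)`;
`(AA θ 2 t + AA θ 1 t/t) t² = (c q (q-1) s1 + 2q (2q-1) s2/w² + c (q-1) s1 + (2q-1) s2/w)/N`,
`(AB θ 2 t + AB θ 1 t/t) t² = (q (q-1) s3/w² + (q-1) s3/w)/N`.
`2^60 s1 ≤ gsM (tLo) (pA a2) (pB a1)`, `2^60 s2 ≤ gsM (tLo sinL/2^60) (pC a2) (pD a1)`, `2^60 s3 ≤ ...` (`BC`, `σ = t` or `tw ≥ 1`),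
`q - 1 ≤ (8192-a1)/a1`, `q ≤ 8192/a1`, `2q-1 ≤ (16384-a1)/a1`, `2q ≤ 16384/a1`, `1/w ≤ 2^60/sinL a1`, `cd` is the ceiling.
The numbers `c0, c1, c2` of `cBd` are (scale `2^40`) bounds of the minima; `1/64`, `1/(2·64²) = 1/8192`.  Then `GTP`.
(`cBd a1 a2 k = k c0 c1 c2`: prove this first, by `sq_eq`.) -/
def BF : Prop := NumOK → BA → BB → BC → BD → BE → GSN → GTP →
  ∀ a1 a2 : ℕ, 2048 ≤ a1 → a1 ≤ a2 → a2 < 4096 → ∀ θ : ℝ, (a1 : ℝ) / 8192 ≤ θ → θ ≤ (a2 : ℝ) / 8192 →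
  ∀ g : ℝ, 1 / 2 ≤ g → g ≤ 1 → g ≤ (1 / θ - 1) / 2 →
  FP θ g ((cBd a1 a2 (fun a _ _ => a) : ℕ) / 2 ^ 40) ((cBd a1 a2 (fun _ b _ => b) : ℕ) / 2 ^ 40)
    ((cBd a1 a2 (fun _ _ c => c) : ℕ) / 2 ^ 40)

/-- (BG) negativity beyond `64`.  `GNI`; divide its condition by `t^(-(q-1))`: it is
`Γ(2q-1) t^(-q) w^(-(2q-1)) < (1 - 1.2338 (q-3)²) Γ(q-1)`.  Left side `= (w/σ) Γ(x) σ^(-x)` with `σ = √t w ≥ 1`,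
`x = 2q-1` (`t^(-q) w^(-2q) = σ^(-2q) = σ^(-(x+1))`), `s ≤ 2^60 σ`, `w ≤ πθ/2 ≤ (pi60+1) a2/(16384·2^60)`, `BC`.  Right side:
`|q - 3| ≤ (d-1)/2^60` (ends of the cell; the last `succ` is slack), `Γ(q-1) = Γ(q)/(q-1) ≥ Γ(pA a2/8192 + 1)/(pB a1/8192)`
(`Γ` is monotone on `[2,∞)`: `Real.Gamma_strictMonoOn_Ici`). -/
def BG : Prop := NumOK → BA → BB → BC → BD → BE → GSN → GNI →
  ∀ a1 a2 : ℕ, 2048 ≤ a1 → a1 ≤ a2 → a2 < 4096 → ∀ θ : ℝ, (a1 : ℝ) / 8192 ≤ θ → θ ≤ (a2 : ℝ) / 8192 →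
  niC a1 a2 = true → ∀ x, 64 ≤ x → f0 θ x < 0

/-- (BH) variation over a cell, from `aLIP`, `GFI`, `mo_mono`, `aCX` (`H s = s^(3/2)`: `m3` is nondecreasing in `θ`;
`∫ y, (y²)^(3/2) dν = m3`).  `Δ = a2 - a = a - a1 = h`. -/
def BH : Prop := NumOK → GFI → ∀ a h : ℕ, 2048 ≤ a - h → h ≤ a → a + h < 4096 → ∀ dm2 dm3 : ℕ,
  momN (a + h) 2 + 4 ≤ momN a 2 + dm2 → momN a 2 + 4 ≤ momN (a - h) 2 + dm2 →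
  m3N (a + h) + 4 ≤ m3N a + dm3 → m3N a + 4 ≤ m3N (a - h) + dm3 →
  ∀ θ : ℝ, ((a - h : ℕ) : ℝ) / 8192 ≤ θ → θ ≤ ((a + h : ℕ) : ℝ) / 8192 → ∀ x : ℝ, 0 < x →
  |f0 θ x - f0 (a / 8192) x| ≤ x ^ 2 / 24 * (dm2 / 2 ^ 40) ∧
  |f0 θ x - f0 (a / 8192) x| ≤ 0.146 * (x * √x) * (dm3 / 2 ^ 40) ∧
  |f0 θ x - f0 (a / 8192) x| ≤ 16 * (h / 8192) ∧
  |f1 θ x - f1 (a / 8192) x| ≤ x / 6 * (dm2 / 2 ^ 40) ∧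
  |f1 θ x - f1 (a / 8192) x| ≤ 0.48 * √x * (dm3 / 2 ^ 40) ∧
  √x * |f1 θ x - f1 (a / 8192) x| ≤ 16 * (h / 8192) ∧
  |f2 θ x - f2 (a / 8192) x| ≤ (dm2 / 2 ^ 40) / 6 ∧
  x * |f2 θ x - f2 (a / 8192) x| ≤ 8.8 * √(mo ((a + h : ℕ) / 8192) 2) * (h / 8192)

/-- (BI) moments on a cell (`mo_mono`, `NumOK.mom`). -/
def BI : Prop := NumOK → ∀ a2 : ℕ, 2048 ≤ a2 → a2 < 4096 → ∀ j : ℕ, 2 ≤ j → j ≤ 4 → ∀ θ : ℝ, 1 / 4 ≤ θ →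
  θ ≤ (a2 : ℝ) / 8192 → mo θ j ≤ ((momN a2 j + 2 : ℕ) : ℝ) / 2 ^ 40

end Pool.Agent.Helper63.P705
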