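import Pool.Agent.Helper63.P705.BS.Chk
import Pool.Agent.Helper63.P705.BS.Goals
import Pool.Agent.Helper63.BS.BF
import Pool.Agent.Helper79.BS.BA
import Pool.Agent.Helper16.BS.BB
import Pool.Agent.Helper26.BS.BC
import Pool.Agent.Helper13.BS.BD
import Pool.Agent.Helper93.BS.BE
import Pool.Agent.Helper30.BS.BG
import Pool.Agent.Helper94.BS.BH
import Pool.Agent.Helper55.BS.BI

/-!
# MP_705522_gt: soundness of `bChk`
-/

namespace Pool.Agent.Helper63.P705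

open Pool.Agent.Helper53.PT (mo m3 f0 f1 f2 tk Nn AA AB FP GTP GSN GNI GFI sg)

theorem nd_eq (a b : Bool) : nd a b = (a && b) := by cases a <;> rfl

theorem nd_true {a b : Bool} : nd a b = true ↔ a = true ∧ b = true := by
  rw [nd_eq, Bool.and_eq_true]

theorem cBd_k {α : Type} (a1 a2 : ℕ) (k : ℕ → ℕ → ℕ → α) :
    cBd a1 a2 k = k (cBd a1 a2 fun x _ _ => x) (cBd a1 a2 fun _ y _ => y)
      (cBd a1 a2 fun _ _ z => z) := by
  simp only [cBd, sq_eq]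

theorem FP_mono {θ g c0 c1 c2 d0 d1 d2 : ℝ} (h : FP θ g c0 c1 c2) (h0 : c0 ≤ d0) (h1 : c1 ≤ d1)
    (h2 : c2 ≤ d2) : FP θ g d0 d1 d2 := by
  refine ⟨h.g0, h.g1, fun x hx => (h.p0 x hx).trans ?_, fun x hx => (h.p1 x hx).trans ?_,
    fun x hx => (h.p2 x hx).trans ?_⟩
  · exact mul_le_mul_of_nonneg_right h0
      (Real.rpow_nonneg (div_nonneg (by norm_num) (by linarith)) _)
  · exact mul_le_mul_of_nonneg_right h1
      (Real.rpow_nonneg (div_nonneg (by norm_num) (by linarith)) _)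
  · exact mul_le_mul_of_nonneg_right h2
      (Real.rpow_nonneg (div_nonneg (by norm_num) (by linarith)) _)

theorem tFP : ∀ a1 a2 : ℕ, 2048 ≤ a1 → a1 ≤ a2 → a2 < 4096 → ∀ θ : ℝ, (a1 : ℝ) / 8192 ≤ θ →
    θ ≤ (a2 : ℝ) / 8192 → ∀ g : ℝ, 1 / 2 ≤ g → g ≤ 1 → g ≤ (1 / θ - 1) / 2 →
  FP θ g ((cBd a1 a2 (fun a _ _ => a) : ℕ) / 2 ^ 40) ((cBd a1 a2 (fun _ b _ => b) : ℕ) / 2 ^ 40)
    ((cBd a1 a2 (fun _ _ c => c) : ℕ) / 2 ^ 40) :=
  Pool.Agent.Helper63.BS.bF num_ok Pool.Agent.Helper79.BS.bA Pool.Agent.Helper16.BS.bB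
    Pool.Agent.Helper26.BS.bC Pool.Agent.Helper13.BS.bD Pool.Agent.Helper93.BS.bE
    Pool.Agent.Helper89.PT.gSN Pool.Agent.Helper31.PT.gTP

theorem tNI : ∀ a1 a2 : ℕ, 2048 ≤ a1 → a1 ≤ a2 → a2 < 4096 → ∀ θ : ℝ, (a1 : ℝ) / 8192 ≤ θ →
    θ ≤ (a2 : ℝ) / 8192 → niC a1 a2 = true → ∀ x, 64 ≤ x → f0 θ x < 0 :=
  Pool.Agent.Helper30.BS.bG num_ok Pool.Agent.Helper79.BS.bA Pool.Agent.Helper16.BS.bB
    Pool.Agent.Helper26.BS.bC Pool.Agent.Helper13.BS.bD Pool.Agent.Helper93.BS.bE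
    Pool.Agent.Helper89.PT.gSN Pool.Agent.Helper94.PT.gNI

/-- Everything that `bChk` guarantees about the cell. -/
structure CellOK (A h dm2 dm3 m2R m3R m4R c0 c1 c2 gn : ℕ) (ni : Bool) (θ : ℝ) : Prop where
  th0 : 1 / 4 ≤ θ
  th1 : θ < 1 / 2
  m2 : mo θ 2 ≤ m2R / 2 ^ 40
  m3 : mo θ 3 ≤ m3R / 2 ^ 40
  m4 : mo θ 4 ≤ m4R / 2 ^ 40
  fp : FP θ (gn / 32) (c0 / 2 ^ 40) (c1 / 2 ^ 40) (c2 / 2 ^ 40)
  ng : ni = true → ∀ x, 64 ≤ x → f0 θ x < 0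
  v : ∀ x : ℝ, 0 < x →
    |f0 θ x - f0 (A / 8192) x| ≤ x ^ 2 / 24 * (dm2 / 2 ^ 40) ∧
    |f0 θ x - f0 (A / 8192) x| ≤ 0.146 * (x * √x) * (dm3 / 2 ^ 40) ∧
    |f0 θ x - f0 (A / 8192) x| ≤ 16 * (h / 8192) ∧
    |f1 θ x - f1 (A / 8192) x| ≤ x / 6 * (dm2 / 2 ^ 40) ∧
    |f1 θ x - f1 (A / 8192) x| ≤ 0.48 * √x * (dm3 / 2 ^ 40) ∧
    √x * |f1 θ x - f1 (A / 8192) x| ≤ 16 * (h / 8192) ∧
    |f2 θ x - f2 (A / 8192) x| ≤ (dm2 / 2 ^ 40) / 6 ∧
    x * |f2 θ x - f2 (A / 8192) x| ≤ 8.8 * √(m2R / 2 ^ 40) * (h / 8192)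
  t : ∀ k : ℕ, k ≤ 1152 →
    |tval (tabP A) k - f0 (A / 8192) (xg k)| ≤ 2⁻¹ ^ 38 ∧
    |tval (tabS A) k - f1 (A / 8192) (xg k)| ≤ 2⁻¹ ^ 38 ∧
    |tval (tabT A) k - f2 (A / 8192) (xg k)| ≤ 2⁻¹ ^ 38

theorem cell_ok {A h dm2 dm3 m2R m3R m4R c0 c1 c2 gn : ℕ} {ni : Bool}
    (hc : bChk A h dm2 dm3 m2R m3R m4R c0 c1 c2 gn ni = true) (θ : ℝ)
    (h1 : ((A : ℝ) - h) / 8192 ≤ θ) (h2 : θ ≤ ((A : ℝ) + h) / 8192) :
    CellOK A h dm2 dm3 m2R m3R m4R c0 c1 c2 gn ni θ := by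
  unfold bChk at hc
  rw [sq_eq, sq_eq, nd_true, nd_true, nd_true, nd_true] at hc
  obtain ⟨k1, k2, kM, kP, kN⟩ := hc
  have e1 : Nat.sub A h = A - h := rfl
  have e2 : Nat.add A h = A + h := rfl
  rw [e1] at k1 kM kP kN
  rw [e2] at k2 kM kP kN
  rw [Nat.ble_eq] at k1 k2
  have k2' : A + h < 4096 := k2
  have hhA : h ≤ A := by
    by_contra hn
    have : A - h = 0 := Nat.sub_eq_zero_of_le (by omega)
    rw [this] at k1
    exact absurd k1 (by norm_num)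
  have hA1 : 2048 ≤ A := le_trans k1 (Nat.sub_le A h)
  have hA2 : A < 4096 := lt_of_le_of_lt (Nat.le_add_right A h) k2'
  have c1' : ((A - h : ℕ) : ℝ) = (A : ℝ) - h := Nat.cast_sub hhA
  have c2' : ((A + h : ℕ) : ℝ) = (A : ℝ) + h := Nat.cast_add A h
  have h1' : ((A - h : ℕ) : ℝ) / 8192 ≤ θ := by rw [c1']; exact h1
  have h2' : θ ≤ ((A + h : ℕ) : ℝ) / 8192 := by rw [c2']; exact h2
  have h12 : A - h ≤ A + h := (Nat.sub_le A h).trans (Nat.le_add_right A h)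
  have hθ14 : 1 / 4 ≤ θ := by
    refine le_trans ?_ h1'
    rw [div_le_div_iff₀ (by norm_num) (by norm_num)]
    have : (2048 : ℝ) ≤ ((A - h : ℕ) : ℝ) := by exact_mod_cast k1
    linarith
  have hθ12 : θ < 1 / 2 := by
    refine lt_of_le_of_lt h2' ?_
    rw [div_lt_div_iff₀ (by norm_num) (by norm_num)]
    have : ((A + h : ℕ) : ℝ) < 4096 := by exact_mod_cast k2'
    linarith
  -- moments
  unfold chkM at kM
  rw [← momN_eq _ 2 (by norm_num), ← momN_eq _ 2 (by norm_num), ← momN_eq _ 2 (by norm_num),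
    ← momN_eq _ 3 (by norm_num), ← momN_eq _ 4 (by norm_num)] at kM
  simp only [sq_eq, nd_true, Nat.ble_eq] at kM
  obtain ⟨m1, m2', m3', m4', m5, m6, m7⟩ := kM
  have hb := Pool.Agent.Helper55.BS.bI num_ok (A + h) (by omega) k2'
  have g2 := hb 2 (by norm_num) (by norm_num) θ hθ14 h2'
  have g3 := hb 3 (by norm_num) (by norm_num) θ hθ14 h2'
  have g4 := hb 4 (by norm_num) (by norm_num) θ hθ14 h2'
  have h240 : (0 : ℝ) < 2 ^ 40 := by norm_num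
  have r2 : mo θ 2 ≤ m2R / 2 ^ 40 := g2.trans (by
    apply div_le_div_of_nonneg_right _ h240.le
    exact_mod_cast m5)
  have r3 : mo θ 3 ≤ m3R / 2 ^ 40 := g3.trans (by
    apply div_le_div_of_nonneg_right _ h240.le
    exact_mod_cast m6)
  have r4 : mo θ 4 ≤ m4R / 2 ^ 40 := g4.trans (by
    apply div_le_div_of_nonneg_right _ h240.le
    exact_mod_cast m7)
  -- power decay
  unfold chkP at kP
  rw [nd_true, nd_true, nd_true, cBd_k, nd_true, nd_true] at kP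
  simp only [Nat.ble_eq] at kP
  obtain ⟨⟨p0, p1, p2⟩, p3, p4, p5⟩ := kP
  have hg : (gn : ℝ) / 32 ≤ (1 / θ - 1) / 2 := by
    have hθ0 : 0 < θ := by linarith
    have q1 : (2 * gn * (A + h : ℕ) : ℝ) ≤ 32 * (8192 - (A + h : ℕ)) := by
      have e3 : ((8192 - (A + h) : ℕ) : ℝ) = 8192 - ((A + h : ℕ) : ℝ) := by
        rw [Nat.cast_sub (by omega)]; norm_num
      rw [← e3]
      have p5' : 2 * gn * (A + h) ≤ 32 * (8192 - (A + h)) := p5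
      exact_mod_cast p5'
    have q2 : (gn : ℝ) * θ * 16⁻¹ + θ ≤ 1 := by
      have hgn : (0 : ℝ) ≤ gn := Nat.cast_nonneg _
      have q3 : (gn : ℝ) * θ * 16⁻¹ + θ ≤ (gn : ℝ) * (((A + h : ℕ) : ℝ) / 8192) * 16⁻¹ +
          ((A + h : ℕ) : ℝ) / 8192 := by
        have := mul_le_mul_of_nonneg_left h2' hgn
        linarith
      refine q3.trans ?_
      have : (gn : ℝ) * (((A + h : ℕ) : ℝ) / 8192) * 16⁻¹ + ((A + h : ℕ) : ℝ) / 8192 =
          (2 * gn * (A + h : ℕ) + 32 * (A + h : ℕ)) / (32 * 8192) := by ring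
      rw [this, div_le_one (by norm_num)]
      linarith
    rw [div_le_iff₀ (by norm_num : (0 : ℝ) < 32)]
    have : (gn : ℝ) ≤ 16 * (1 / θ - 1) := by
      have q4 : (gn : ℝ) * θ ≤ 16 * (1 - θ) := by linarith
      have q5 : 16 * (1 / θ - 1) = 16 * (1 - θ) / θ := by field_simp
      rw [q5, le_div_iff₀ hθ0]
      exact q4
    linarith
  have fp := tFP (A - h) (A + h) k1 h12 k2' θ h1' h2' (gn / 32)
    (by
      rw [div_le_div_iff₀ (by norm_num) (by norm_num)]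
      have : (16 : ℝ) ≤ gn := by exact_mod_cast p3
      linarith)
    (by
      rw [div_le_one (by norm_num)]
      exact_mod_cast p4) hg
  have fp' : FP θ (gn / 32) (c0 / 2 ^ 40) (c1 / 2 ^ 40) (c2 / 2 ^ 40) := by
    refine FP_mono fp ?_ ?_ ?_
    · exact div_le_div_of_nonneg_right (by exact_mod_cast p0) h240.le
    · exact div_le_div_of_nonneg_right (by exact_mod_cast p1) h240.le
    · exact div_le_div_of_nonneg_right (by exact_mod_cast p2) h240.le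
  have hv := Pool.Agent.Helper94.BS.bH num_ok Pool.Agent.Helper70.PT.gFI A h k1 hhA k2' dm2 dm3
    m1 m2' m3' m4' θ h1' h2'
  have hA2R : mo (((A + h : ℕ) : ℝ) / 8192) 2 ≤ m2R / 2 ^ 40 := by
    have := hb 2 (by norm_num) (by norm_num) (((A + h : ℕ) : ℝ) / 8192) (hθ14.trans h2') le_rfl
    exact this.trans (by
      apply div_le_div_of_nonneg_right _ h240.le
      exact_mod_cast m5)
  refine ⟨hθ14, hθ12, r2, r3, r4, fp', ?_, ?_, num_ok.tab A hA1 hA2⟩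
  · intro hni
    rw [hni, cnd_eq, if_pos rfl] at kN
    exact tNI (A - h) (A + h) k1 h12 k2' θ h1' h2' kN
  · intro x hx
    obtain ⟨v1, v2, v3, v4, v5, v6, v7, v8⟩ := hv x hx
    refine ⟨v1, v2, v3, v4, v5, v6, v7, v8.trans ?_⟩
    apply mul_le_mul_of_nonneg_right _ (div_nonneg (Nat.cast_nonneg _) (by norm_num))
    exact mul_le_mul_of_nonneg_left (Real.sqrt_le_sqrt hA2R) (by norm_num)

end Pool.Agent.Helper63.P705
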