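import Pool.Agent.Helper63.P705.BS.Fun
import Pool.Agent.Helper63.P705.BS.MomF

/-!
# MP_705522_gt: check of the base data of a cell (kernel function)
-/

noncomputable section

namespace Pool.Agent.Helper63.P705

/-- conjunction by cases -/
def nd (a b : Bool) : Bool := cnd a b Bool.false

/-- moments, variation data -/
def chkM (a1 a a2 dm2 dm3 m2R m3R m4R : ℕ) : Bool :=
  sq (momF a2 2) fun M2 => sq (momF a 2) fun M1 => sq (momF a1 2) fun M0 =>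
  sq (m3N a2) fun P2 => sq (m3N a) fun P1 => sq (m3N a1) fun P0 =>
  nd (Nat.ble (Nat.add M2 4) (Nat.add M1 dm2)) (nd (Nat.ble (Nat.add M1 4) (Nat.add M0 dm2))
  (nd (Nat.ble (Nat.add P2 4) (Nat.add P1 dm3)) (nd (Nat.ble (Nat.add P1 4) (Nat.add P0 dm3))
  (nd (Nat.ble (Nat.add M2 2) m2R) (nd (Nat.ble (Nat.add (momF a2 3) 2) m3R)
    (Nat.ble (Nat.add (momF a2 4) 2) m4R))))))

/-- power decay -/
def chkP (a1 a2 c0 c1 c2 gn : ℕ) : Bool :=
  nd (cBd a1 a2 fun x y z => nd (Nat.ble x c0) (nd (Nat.ble y c1) (Nat.ble z c2)))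
    (nd (Nat.ble 16 gn) (nd (Nat.ble gn 32)
      (Nat.ble (Nat.mul (Nat.mul 2 gn) a2) (Nat.mul 32 (Nat.sub 8192 a2)))))

/-- all conditions on the base data of the cell `(A - h)/8192 ≤ θ ≤ (A + h)/8192` -/
def bChk (A h dm2 dm3 m2R m3R m4R c0 c1 c2 gn : ℕ) (ni : Bool) : Bool :=
  sq (Nat.sub A h) fun a1 => sq (Nat.add A h) fun a2 =>
  nd (Nat.ble 2048 a1) (nd (Nat.ble (Nat.succ a2) 4096) (nd (chkM a1 A a2 dm2 dm3 m2R m3R m4R)
    (nd (chkP a1 a2 c0 c1 c2 gn) (cnd ni (niC a1 a2) Bool.true))))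

end Pool.Agent.Helper63.P705
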