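import Pool.Agent.Helper63.P705.NUM.Tab

/-!
# MP_705522_gt: the kernel functions for the base data of a cell `a1/8192 ≤ θ ≤ a2/8192`

Scale `2^60`; `cd x y = ⌈x/y⌉`.  Everything is a one-sided bound.
-/

noncomputable section

namespace Pool.Agent.Helper63.P705

/-- `⌈x / y⌉` -/
def cd (x y : ℕ) : ℕ := Nat.div (Nat.add x (Nat.sub y 1)) y

/-- a number `r` with `r² ≤ n` (Newton from `x0`, about `√n` if `x0 ≥ √n/2`) -/
def sqF (n x0 : ℕ) : ℕ :=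
  sq (lp 12 (fun _ s => Nat.shiftRight (Nat.add s (Nat.div n s)) 1) x0) fun r =>
  cnd (Nat.ble (Nat.mul r r) n) r
    (sq (Nat.sub r 1) fun r' => cnd (Nat.ble (Nat.mul r' r') n) r' 0)

/-- upper and lower bounds of `2^60 Γ(p/8192)` -/
def gamU (p : ℕ) : ℕ := sq (gamN p) fun g => Nat.succ (Nat.add g (Nat.shiftRight g 49))
def gamL (p : ℕ) : ℕ := sq (gamN p) fun g => Nat.sub g (Nat.succ (Nat.shiftRight g 49))

/-- the 13 iterated square roots: lower bound of `2^60 (s/2^60)^(r/8192)`, `r < 8192` -/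
def pwr (s r : ℕ) : ℕ :=
  lp2 13 (fun i cur acc k =>
    sq (sqF (Nat.shiftLeft cur 60) cur) fun cur' =>
    sq (cnd (Nat.beq (Nat.land (Nat.shiftRight r i) 1) 0) acc
      (Nat.shiftRight (Nat.mul acc cur') 60)) fun acc' => k cur' acc')
    (fun _ acc => acc) s (Nat.shiftLeft 1 60)

/-- lower bound of `2^60 (s/2^60)^(P/8192)`, `s ≥ 2^60` -/
def pwL (s P : ℕ) : ℕ :=
  sq (Nat.shiftRight P 13) fun m =>
  Nat.shiftRight (Nat.mul (Nat.shiftRight (Nat.pow s m) (Nat.mul 60 (Nat.sub m 1)))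
    (pwr s (Nat.land P 8191))) 60

/-- upper bound of `2^60 Γ(P/8192) (s/2^60)^(-P/8192)` -/
def gsP (s P : ℕ) : ℕ := sq (pwL s P) fun w =>
  cnd (Nat.beq w 0) (Nat.shiftLeft 1 200) (Nat.succ (Nat.div (Nat.shiftLeft (gamU P) 60) w))

/-- maximum over both ends -/
def gsM (s P P' : ℕ) : ℕ := nmax (gsP s P) (gsP s P')

/-- `⌊2^60 π⌋` -/
def pi60 : ℕ := 3622009729038561421

/-- lower bound of `2^60 sin(π a/16384)`, `a ≤ 4096` -/
def sinL (a : ℕ) : ℕ :=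
  sq (Nat.shiftRight (Nat.mul pi60 a) 14) fun X =>
  Nat.div (Nat.sub (Nat.add (Nat.mul 5040 (Nat.shiftLeft X 360))
      (Nat.mul 42 (Nat.shiftLeft (Nat.pow X 5) 120)))
    (Nat.add (Nat.mul 840 (Nat.shiftLeft (Nat.pow X 3) 240)) (Nat.pow X 7)))
    (Nat.mul 5040 (Nat.shiftLeft 1 360))

/-- lower bound of `2^60 tk θ 64` on the cell -/
def tLo (a1 a2 : ℕ) : ℕ :=
  sq (Nat.div (Nat.shiftLeft (gamL (Nat.sub 8192 a1)) 126)
    (nmax (gamU (Nat.add 8192 a1)) (gamU (Nat.add 8192 a2)))) fun t2 => sqF t2 (Nat.shiftLeft 10 60)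

/-- upper bound of `2^60 |cos(π(q-1)/2)|` on the cell -/
def csU (a1 a2 : ℕ) : ℕ :=
  sq (cd (Nat.shiftLeft (Nat.sub 8192 (Nat.mul 2 a1)) 60) a1) fun u =>
  sq (cd (Nat.shiftLeft (Nat.sub (Nat.mul 4 a2) 8192) 60) a2) fun v =>
  nmin (Nat.shiftLeft 1 60) (nmin (cd (Nat.mul u v) (Nat.shiftLeft 1 60))
    (nmin (cd (Nat.mul u 15708) 10000) (cd (Nat.mul v 15708) 10000)))

/-- exponents: `8192 (q-1) ∈ [pA a2, pB a1]`, `8192 (2q-1) ∈ [pC a2, pD a1]` -/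
def pA (a : ℕ) : ℕ := Nat.sub (Nat.div 67108864 a) 8192
def pB (a : ℕ) : ℕ := Nat.sub (cd 67108864 a) 8192
def pC (a : ℕ) : ℕ := Nat.sub (Nat.div 134217728 a) 8192
def pD (a : ℕ) : ℕ := Nat.sub (cd 134217728 a) 8192

/-- the bounds `2^40 c0, 2^40 c1, 2^40 c2` (continuation passing) -/
def cBd {α : Type} (a1 a2 : ℕ) (k : ℕ → ℕ → ℕ → α) : α :=
  sq (tLo a1 a2) fun t => sq (sinL a1) fun w => sq (Nat.shiftRight (Nat.mul t w) 60) fun tw =>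
  sq (Nat.shiftRight (Nat.mul a1 (gamL (Nat.sub 8192 a1))) 13) fun nL =>
  sq (cd (Nat.mul (csU a1 a2) (gsM t (pA a2) (pB a1))) (Nat.shiftLeft 1 60)) fun cS =>
  sq (gsM tw (pC a2) (pD a1)) fun S2 => sq (gsM tw (pA a2) (pB a1)) fun S3 =>
  sq (Nat.add (cd (Nat.mul cS (Nat.sub 8192 a1)) a1)
    (cd (Nat.shiftLeft (cd (Nat.mul S2 (Nat.sub 16384 a1)) a1) 60) w)) fun e1 =>
  sq (cd (Nat.shiftLeft (cd (Nat.mul S3 (Nat.sub 8192 a1)) a1) 60) w) fun g1 =>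
  sq (Nat.add (cd (Nat.mul (cd (Nat.mul cS (Nat.sub 8192 a1)) a1) 8192) a1)
    (cd (Nat.shiftLeft (cd (Nat.shiftLeft (cd (Nat.mul (cd (Nat.mul S2 (Nat.sub 16384 a1)) a1) 16384) a1)
      60) w) 60) w)) fun e2 =>
  sq (cd (Nat.shiftLeft (cd (Nat.mul g1 8192) a1) 60) w) fun g2 =>
  k (cd (Nat.shiftLeft (nmin (Nat.add cS S2) S3) 40) nL)
    (cd (Nat.shiftLeft (nmin e1 g1) 40) (Nat.mul 64 nL))
    (cd (Nat.shiftLeft (nmin (Nat.add e2 e1) (Nat.add g2 g1)) 40) (Nat.mul 8192 nL))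

/-- condition for `f0 < 0` beyond `64` -/
def niC (a1 a2 : ℕ) : Bool :=
  sq (tLo a1 a2) fun t => sq (sinL a1) fun w =>
  sq (Nat.shiftRight (Nat.mul (sqF (Nat.shiftLeft t 60) (Nat.shiftLeft 3 60)) w) 60) fun s =>
  sq (cd (Nat.mul (cd (Nat.mul (Nat.succ pi60) a2) 16384) (gsM s (pC a2) (pD a1))) s) fun lhs =>
  sq (Nat.succ (nmax (nmax (Nat.sub (cd (Nat.shiftLeft 8192 60) a1) (Nat.shiftLeft 3 60))
      (Nat.sub (Nat.shiftLeft 3 60) (Nat.div (Nat.shiftLeft 8192 60) a1)))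
    (nmax (Nat.sub (cd (Nat.shiftLeft 8192 60) a2) (Nat.shiftLeft 3 60))
      (Nat.sub (Nat.shiftLeft 3 60) (Nat.div (Nat.shiftLeft 8192 60) a2))))) fun d =>
  sq (Nat.sub (Nat.shiftLeft 1 60) (cd (Nat.mul (cd (Nat.mul d d) (Nat.shiftLeft 1 60)) 12338) 10000))
    fun f =>
  cnd (Nat.beq s 0) Bool.false (Nat.ble (Nat.succ lhs)
    (Nat.shiftRight (Nat.mul f (Nat.div (Nat.shiftLeft (gamL (Nat.add (pA a2) 8192)) 13) (pB a1))) 60))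

end Pool.Agent.Helper63.P705
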